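import Pool.Agent.FullLaws.Final

/-!
# Groups of piecewise powers of one element

Let a finitely generated group `G` act faithfully on a set `X`, and let `t : G` be such that every
`g : G` is piecewise a power of `t`, with bounded exponents (for example: `G` is a subgroup of the
topological full group of a homeomorphism `t` of a compact space, and contains `t`). If `G`
satisfies a law then `G` is virtually abelian, and so has polynomial growth.
-/

set_option autoImplicit false

namespace Pool.Agent.Results.MP_cd8cba_al.PiecewisePowers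

/-- the ball of radius `n` -/
def ball {G : Type} [Group G] (S : Finset G) (n : ℕ) : Set G :=
  {g : G | ∃ l : List G, l.length ≤ n ∧ (∀ x ∈ l, x ∈ S ∨ x⁻¹ ∈ S) ∧ l.prod = g}

theorem result {G X : Type} [Group G] [MulAction G X] [FaithfulSMul G X] (t : G)
    (ht : ∀ g : G, ∃ D : ℕ, ∀ x : X, ∃ i : ℤ, |i| ≤ D ∧ g • x = t ^ i • x)
    (S : Finset G) (hS : Subgroup.closure (S : Set G) = ⊤)
    (hlaw : ∃ w : FreeGroup ℕ, w ≠ 1 ∧ ∀ f : ℕ → G, FreeGroup.lift f w = 1) :
    (∃ A : Subgroup G, A.FiniteIndex ∧ ∀ a ∈ A, ∀ b ∈ A, a * b = b * a) ∧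
      ∃ C d : ℕ, ∀ n : ℕ, Set.ncard (ball S n) ≤ C * (n + 1) ^ d := by
  obtain ⟨w, hw, h⟩ := hlaw
  obtain ⟨A, h1, h2⟩ := Pool.Agent.FullLaws.main (X := X) t ht hS hw h
  exact ⟨⟨A, h1, h2⟩, Pool.Agent.FullLaws.poly_growth A h1 h2 S⟩

end Pool.Agent.Results.MP_cd8cba_al.PiecewisePowers
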