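import Pool.Agent.Tracks.Final

/-!
# Permutations of finitely many tracks

Let a finitely generated group `G` act faithfully on a set `X`, let `t : G`, and let
`col : X → ℤ` be a function with `col (t x) = col x + 1` and finite fibres, such that every element
of `G` changes `col` by a bounded amount. So `X` is the union of `r` copies of `ℤ` on which `t` acts
by translation, where `r` is the number of the points with `col = 0`. Example: `X = ℤ`, `t` is the
translation `x ↦ x + r`, and `G` is a finitely generated group of permutations of bounded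
displacement which contains `t` (`col x` is the integer part of `x / r`).

If `G` satisfies a law then `G` has a normal subgroup `N` of finite exponent dividing `r!`, whose
finitely generated subgroups are finite, such that `G / N` is virtually abelian, and either the
growth of `G` is exponential, or `N` is trivial and the growth of `G` is polynomial.
-/

set_option autoImplicit false

namespace Pool.Agent.Results.MP_cd8cba_al.SeveralTracks

/-- the ball of radius `n` -/
def ball {G : Type} [Group G] (S : Finset G) (n : ℕ) : Set G :=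
  {g : G | ∃ l : List G, l.length ≤ n ∧ (∀ x ∈ l, x ∈ S ∨ x⁻¹ ∈ S) ∧ l.prod = g}

theorem result {G X : Type} [Group G] [MulAction G X] [FaithfulSMul G X] (t : G) (col : X → ℤ)
    (hfin : {x | col x = 0}.Finite) (hcol : ∀ x, col (t • x) = col x + 1)
    (hdisp : ∀ g : G, ∃ D : ℕ, ∀ x, |col (g • x) - col x| ≤ D)
    (S : Finset G) (hS : Subgroup.closure (S : Set G) = ⊤)
    (hlaw : ∃ w : FreeGroup ℕ, w ≠ 1 ∧ ∀ f : ℕ → G, FreeGroup.lift f w = 1) :
    ∃ N A : Subgroup G, N.Normal ∧ A.FiniteIndex ∧
      (∀ T : Set G, T.Finite → T ⊆ N → (Subgroup.closure T : Set G).Finite) ∧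
      (∀ k ∈ N, k ^ ({x | col x = 0}.ncard).factorial = 1) ∧
      (∀ a ∈ A, ∀ b ∈ A, a * b * a⁻¹ * b⁻¹ ∈ N) ∧
      ((∃ c : ℝ, 1 < c ∧ ∀ n : ℕ, c ^ n ≤ ((ball S n).ncard : ℝ)) ∨
        N = ⊥ ∧ ∃ C d : ℕ, ∀ n : ℕ, (ball S n).ncard ≤ C * (n + 1) ^ d) := by
  obtain ⟨w, hw, h⟩ := hlaw
  by_cases hsub : Pool.Agent.Tracks.Subexp S
  · obtain ⟨A, h1, h2⟩ := Pool.Agent.Tracks.main t col hfin hcol hdisp hS hw h hsub
    refine ⟨⊥, A, inferInstance, h1, fun T _ hT => ?_, fun k hk => ?_, fun a ha b hb => ?_,
      Or.inr ⟨rfl, Pool.Agent.FullLaws.poly_growth A h1 h2 S⟩⟩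
    · have h3 : Subgroup.closure T ≤ ⊥ := (Subgroup.closure_le _).2 hT
      refine (Set.finite_singleton (1 : G)).subset fun g hg => ?_
      exact Subgroup.mem_bot.1 (h3 hg)
    · rw [Subgroup.mem_bot.1 hk, one_pow]
    · rw [Subgroup.mem_bot, h2 a ha b hb, mul_inv_cancel_right, mul_inv_cancel]
  · obtain ⟨N, A, h1, h2, h3, h4, h5⟩ :=
      Pool.Agent.Tracks.structure_thm t col hfin hcol hdisp hS hw h
    exact ⟨N, A, h1, h2, h3, h4, h5, Or.inl (Pool.Agent.Tracks.exp_growth hsub)⟩

end Pool.Agent.Results.MP_cd8cba_al.SeveralTracks
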