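import Pool.Agent.H2Blocks.Last

/-!
# Groups of intermediate growth with a law: simple, hereditarily just infinite or critical sections

`Slow G` says that `G` is a finitely generated group of subexponential growth which is not virtually
nilpotent; by Gromov's theorem these are the groups of intermediate growth.

If a slow group `G` satisfies a nontrivial law, then some quotient `H` of a subgroup of `G` is slow,
no slow subgroup of a section of `H` is displaceable, and `H` is simple, or residually finite and
such that all subgroups which are reachable from `H` by passing to subgroups of finite index and to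
nontrivial normal subgroups are slow and critical. In the second case moreover `H` is hereditarily
just infinite, or every reachable subgroup maps virtually onto the integers.

`Critical Q`: every proper quotient of `Q` is virtually nilpotent, every normal subgroup of `Q` is
finitely generated, and the commutator of any two nontrivial normal subgroups is not trivial (so
nontrivial normal subgroups have trivial centralizers and meet nontrivially).

`Displaceable B`: for some element `h` and some `k` other than `1`, `B` commutes with its conjugates
by the powers `h ^ i`, `i` not divisible by `k`, and with `h ^ k` (for `k = 0`: with all conjugates by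
`h ^ i`, `i` not `0`); for instance `B` is a factor of the base of the wreath product of `B` with a
cyclic group.

Proof. Kernels of virtually solvable quotients of a finitely generated group of subexponential
growth are finitely generated (Milnor, Rosset), and virtually solvable groups of subexponential
growth are virtually nilpotent (Milnor, Wolf; proved here). By Zorn's lemma every slow group has a
slow critical quotient `Q`. If the intersection `R` of the subgroups of finite index of `Q` is not
trivial, then it has no proper subgroup of finite index, and the quotient of `R` by a maximal normal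
subgroup is simple and infinite.

Among all nontrivial laws of all slow sections of `G` choose one, `w`, of least complexity (length
minus number of variables); replace `G` by the section. If `B` is a displaceable subgroup of a section
of `G`, then `B` modulo its centre satisfies a strictly simpler law (follow the heights of the letters
of `w`), so `B` is not slow. Let now `Q` be residually finite. A block is a nontrivial subgroup `B` of
`Q` whose normalizer has finite index and whose other conjugates commute with `B`. Blocks are finitely
generated and slow. In the same way as before, the orbits of single elements on the conjugates of a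
block are short. From this one gets a block `C` such that all blocks in `C` have the same normalizer
as `C`; the group `H` which the normalizer of `C` induces on `C` is residually finite, all its
subgroups of finite index are critical, and every nontrivial subgroup which is normalized by a
subgroup of finite index contains a nontrivial normal subgroup. Let `K` be a nontrivial normal
subgroup of `H` and `K / X` a slow critical quotient. If the conjugates of `X` by the powers of an
element `t` were different for a long time then a nontrivial normal subgroup of `K / X` would satisfy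
a strictly simpler law (modulo `X` the conjugates of suitable elements of `K` are independent). So the
orbits are short, the normalizer of `X` has finite index, hence `X` is trivial, and `K` is critical.
-/

set_option autoImplicit false

namespace Pool.Agent.Results.MP_cd8cba_al.SimpleOrResiduallyFinite

open Pool.Agent.H2SlowRed Pool.Agent.H2Blocks

/-- the ball of radius `n`: the products of at most `n` elements of `S` and their inverses -/
def ball {G : Type} [Group G] (S : Finset G) (n : ℕ) : Set G :=
  {g : G | ∃ l : List G, l.length ≤ n ∧ (∀ x ∈ l, x ∈ S ∨ x⁻¹ ∈ S) ∧ l.prod = g}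

/-- some subgroup of finite index is nilpotent -/
def VirtuallyNilpotent (G : Type) [Group G] : Prop :=
  ∃ P : Subgroup G, P.FiniteIndex ∧ Group.IsNilpotent P

/-- finitely generated, of subexponential growth, not virtually nilpotent -/
structure Slow (G : Type) [Group G] : Prop where
  growth : ∃ S : Finset G, Subgroup.closure (S : Set G) = ⊤ ∧
    ∀ c : ℝ, 1 < c → ∃ N : ℕ, ∀ n ≥ N, ((ball S n).ncard : ℝ) < c ^ n
  not_virtuallyNilpotent : ¬ VirtuallyNilpotent G

/-- `G` satisfies the law `w` -/
def Law (G : Type) [Group G] (w : FreeGroup ℕ) : Prop :=
  ∀ f : ℕ → G, FreeGroup.lift f w = 1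

/-- `H` is a section of `G`: a quotient of a subgroup of `G` -/
def IsSection (G H : Type) [Group G] [Group H] : Prop :=
  ∃ (S : Subgroup G) (φ : S →* H), Function.Surjective φ

/-- residually finite: every element other than `1` lies outside some normal subgroup of finite
index -/
def RF (Q : Type) [Group Q] : Prop :=
  ∀ x : Q, x ≠ 1 → ∃ N : Subgroup Q, N.Normal ∧ N.FiniteIndex ∧ x ∉ N

/-- all proper quotients are virtually nilpotent, all normal subgroups are finitely generated, any
two nontrivial normal subgroups have a nontrivial commutator -/
structure Critical (Q : Type) [Group Q] : Prop where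
  quotients : ∀ (N : Subgroup Q) [N.Normal], N ≠ ⊥ → VirtuallyNilpotent (Q ⧸ N)
  normal_fg : ∀ N : Subgroup Q, N.Normal → N.FG
  comm : ∀ N N' : Subgroup Q, N.Normal → N'.Normal → N ≠ ⊥ → N' ≠ ⊥ → ⁅N, N'⁆ ≠ ⊥

/-- for some `h` and some `k` other than `1`, `B` commutes with `h ^ i * B * h ^ (-i)` for all `i`
not divisible by `k`, and with `h ^ k` -/
def Displaceable {W : Type} [Group W] (B : Subgroup W) : Prop :=
  ∃ (h : W) (k : ℕ), k ≠ 1 ∧ (∀ y ∈ B, h ^ k * y = y * h ^ k) ∧
    ∀ i : ℤ, ¬ (k : ℤ) ∣ i → ∀ y ∈ B, ∀ z ∈ B,
      y * (h ^ i * z * (h ^ i)⁻¹) = (h ^ i * z * (h ^ i)⁻¹) * y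

/-- the subgroups which are obtained from the whole group by passing repeatedly to subgroups of
finite index and to nontrivial normal subgroups -/
inductive Reachable {H : Type} [Group H] : Subgroup H → Prop
  | top : Reachable ⊤
  | finite_index (K M : Subgroup H) : Reachable K → M ≤ K → M.relIndex K ≠ 0 → Reachable M
  | normal (K N : Subgroup H) : Reachable K → N ≤ K → N ≠ ⊥ →
      (∀ k ∈ K, ∀ x ∈ N, k * x * k⁻¹ ∈ N) → Reachable N

/-- all nontrivial normal subgroups of all subgroups of finite index have finite index -/
def HereditarilyJustInfinite (H : Type) [Group H] : Prop :=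
  ∀ M : Subgroup H, M.FiniteIndex → ∀ N : Subgroup M, N.Normal → N ≠ ⊥ → N.FiniteIndex

/-- some subgroup of finite index maps onto the integers -/
def VirtuallyOntoInt (K : Type) [Group K] : Prop :=
  ∃ M : Subgroup K, M.FiniteIndex ∧ ∃ φ : M →* Multiplicative ℤ, Function.Surjective φ

theorem slow_iff (G : Type) [Group G] : Slow G ↔ SubG G ∧ ¬ VNm (⊥ : Subgroup G) := by
  rw [vnm_iff]
  exact ⟨fun h => ⟨h.1, h.2⟩, fun h => ⟨h.1, h.2⟩⟩

theorem rf {Q : Type} [Group Q] (hr : Res Q = ⊥) : RF Q := by
  intro x hx
  by_contra hcon
  push Not at hcon
  have h1 : x ∈ Res Q := by
    rw [Res, Subgroup.mem_sInf]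
    exact fun K hK => hcon K hK.1 hK.2
  rw [hr] at h1
  exact hx (Subgroup.mem_bot.1 h1)

theorem critical {Q : Type} [Group Q] (h : JS Q) : Critical Q where
  quotients := fun _ hN h0 => (vnm_iff _).1 (h.vn_quot hN h0)
  normal_fg := fun _ hN => h.fg hN
  comm := fun _ _ hN hN' h0 h0' => h.comm hN h0 hN' h0'

theorem law_section {G H : Type} [Group G] [Group H] (h : IsSection G H) {v : FreeGroup ℕ}
    (hv : Law G v) : Law H v := by
  obtain ⟨S, φ, hφ⟩ := h
  exact law_of_surj hφ (law_sub hv S)

theorem reach {H : Type} [Group H] {K : Subgroup H} (h : Reachable K) : Reach K := by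
  induction h with
  | top => exact Reach.top
  | finite_index K M _ h1 h2 ih => exact Reach.fin K M ih h1 h2
  | normal K N _ h1 h2 h3 ih => exact Reach.normal K N ih h1 h2 h3

theorem result (G : Type) [Group G] (hG : Slow G) (w : FreeGroup ℕ) (hw : w ≠ 1)
    (hlaw : Law G w) :
    ∃ (H : Type) (_ : Group H), IsSection G H ∧ (∀ v : FreeGroup ℕ, Law G v → Law H v) ∧
      Slow H ∧
      (∀ (W : Type) [Group W], IsSection H W → ∀ B : Subgroup W, Slow B → ¬ Displaceable B) ∧
      (IsSimpleGroup H ∨
        RF H ∧ (∀ K : Subgroup H, Reachable K → Slow K ∧ Critical K) ∧
          (HereditarilyJustInfinite H ∨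
            ∀ K : Subgroup H, Reachable K → VirtuallyOntoInt K)) := by
  rw [slow_iff] at hG
  obtain ⟨H, _, L, h1, h2, h3, hL, h4⟩ := sections hG.1 hG.2 hw hlaw
  refine ⟨H, inferInstance, h1, fun v hv => law_section h1 hv, (slow_iff H).2 ⟨h2, h3⟩, ?_, ?_⟩
  · rintro W _ hW B hB ⟨h, k, hk1, hk, hcomm⟩
    rw [slow_iff] at hB
    exact (hL.of_sec hW).no_disp hB.1 (fun h5 => hB.2 (milnor_wolf hB.1 h5)) hk1 hk hcomm
  · rcases h4 with h4 | ⟨h4, h5⟩
    · exact Or.inl h4
    · refine Or.inr ⟨rf h4.res, fun K hK => ?_, ?_⟩
      · have h6 := (h4.reach (reach hK)).js
        exact ⟨(slow_iff K).2 ⟨h6.sub, fun h => h6.not_vs h.vs⟩, critical h6⟩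
      · rcases h5 with h5 | h5
        · exact Or.inl fun M hM N hN hN0 => h4.hji h5 M hM N hN hN0
        · exact Or.inr fun K hK => h5 K (reach hK)

end Pool.Agent.Results.MP_cd8cba_al.SimpleOrResiduallyFinite
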