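import Pool.Agent.SlowLaws.Main

/-!
# Groups of intermediate growth which are arbitrarily slowly solvable

`ball S n` is the ball of radius `n` of the group `G` with respect to the finite set `S`, and
`Intermediate S` says that the group generated by `S` is the whole group and that its growth is
neither polynomial nor exponential (literally as in the frozen statement of the problem).

`derivedWord d` is the universal word of solvability of derived length `d`:
`δ₀ = x₀`, `δ_{d+1} = [δ_d(x₀, x₂, x₄, …), δ_d(x₁, x₃, x₅, …)]`.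
-/

set_option autoImplicit false

namespace Pool.Agent.Results.MP_cd8cba_al.SlowlySolvable

/-- the ball of radius `n` -/
def ball {G : Type} [Group G] (S : Finset G) (n : ℕ) : Set G :=
  {g : G | ∃ l : List G, l.length ≤ n ∧ (∀ x ∈ l, x ∈ S ∨ x⁻¹ ∈ S) ∧ l.prod = g}

/-- `S` generates the group, and the group has intermediate growth -/
def Intermediate {G : Type} [Group G] (S : Finset G) : Prop :=
  Subgroup.closure (S : Set G) = ⊤ ∧
  (∀ C d : ℕ, ∃ n : ℕ, C * (n + 1) ^ d < Set.ncard (ball S n)) ∧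
  (∀ c : ℝ, 1 < c → ∃ N : ℕ, ∀ n : ℕ, N ≤ n → ((Set.ncard (ball S n) : ℕ) : ℝ) < c ^ n)

/-- `w` is a law on the ball of radius `n`: it vanishes whenever all variables are in the ball -/
def LawOn {G : Type} [Group G] (S : Finset G) (n : ℕ) (w : FreeGroup ℕ) : Prop :=
  ∀ f : ℕ → G, (∀ m, f m ∈ ball S n) → FreeGroup.lift f w = 1

/-- the derived words; `derivedWord d` involves the variables with indices `< 2 ^ d` -/
def derivedWord : ℕ → FreeGroup ℕ
  | 0 => FreeGroup.of 0
  | d + 1 => FreeGroup.map (fun n => 2 * n) (derivedWord d) *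
      FreeGroup.map (fun n => 2 * n + 1) (derivedWord d) *
      (FreeGroup.map (fun n => 2 * n) (derivedWord d))⁻¹ *
      (FreeGroup.map (fun n => 2 * n + 1) (derivedWord d))⁻¹

theorem derivedWord_eq (d : ℕ) : derivedWord d = Pool.Agent.SlowLaws.dw d := by
  induction d with
  | zero => rfl
  | succ d ih => rw [derivedWord, Pool.Agent.SlowLaws.dw, ih]; rfl

theorem LawOn.succ {G : Type} [Group G] {S : Finset G} {n d : ℕ}
    (h : LawOn S n (derivedWord d)) : LawOn S n (derivedWord (d + 1)) := by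
  intro f hf
  rw [derivedWord_eq, Pool.Agent.SlowLaws.lift_dw_succ, ← derivedWord_eq,
    h _ (fun m => hf _), h _ (fun m => hf _)]
  simp [Pool.Agent.SlowLaws.Cm]

theorem LawOn.le {G : Type} [Group G] {S : Finset G} {n d d' : ℕ}
    (h : LawOn S n (derivedWord d)) (hd : d ≤ d') : LawOn S n (derivedWord d') := by
  induction d', hd using Nat.le_induction with
  | base => exact h
  | succ d' _ ih => exact ih.succ

theorem result :
    (∀ d, derivedWord d ≠ 1) ∧
    ∀ h : ℕ → ℕ, (∀ B, ∃ n₀, ∀ n, n₀ ≤ n → B ≤ h n) →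
      ∃ (G : Type) (_ : Group G) (S : Finset G),
        S.card ≤ 4 ∧ Intermediate S ∧ ∀ n, 3 ≤ h n → LawOn S n (derivedWord (h n)) := by
  have main : ∀ R : ℕ → ℕ, ∃ (G : Type) (_ : Group G) (S : Finset G),
      S.card ≤ 4 ∧ Intermediate S ∧ ∀ i, LawOn S (R i) (derivedWord (2 * i + 3)) := by
    intro R
    obtain ⟨w, h1, h2, h3⟩ := Pool.Agent.SlowLaws.exists_group R
    refine ⟨Pool.Agent.SlowLaws.G w, inferInstance, Pool.Agent.SlowLaws.SS w,
      Pool.Agent.SlowLaws.SS_card w, ⟨Pool.Agent.SlowLaws.SS_closure w, h2, h3⟩, fun i => ?_⟩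
    rw [derivedWord_eq]
    exact h1 i
  refine ⟨fun d => ?_, ?_⟩
  · rw [derivedWord_eq]
    exact Pool.Agent.SlowLaws.dw_ne_one d
  · intro h hh
    choose t ht using hh
    set R : ℕ → ℕ := fun i => max i (t (2 * i + 5)) with hR
    obtain ⟨G, hG, S, hc, hS, hlaw⟩ := main R
    refine ⟨G, hG, S, hc, hS, fun n hn => ?_⟩
    have hex : ∃ i, n ≤ R i := ⟨n, le_max_left _ _⟩
    obtain ⟨i, hi, hmin⟩ : ∃ i, n ≤ R i ∧ ∀ j < i, ¬ n ≤ R j :=
      ⟨Nat.find hex, Nat.find_spec hex, fun j hj => Nat.find_min hex hj⟩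
    have h1 : 2 * i + 3 ≤ h n := by
      rcases Nat.eq_zero_or_pos i with h0 | h0
      · subst h0
        exact hn
      · have h1 := hmin (i - 1) (by omega)
        have h2 : t (2 * (i - 1) + 5) ≤ n := by
          have : t (2 * (i - 1) + 5) ≤ R (i - 1) := le_max_right _ _
          omega
        have h3 := ht _ n h2
        omega
    have h2 : LawOn S n (derivedWord (2 * i + 3)) := by
      intro f hf
      refine hlaw i f fun m => ?_
      obtain ⟨l, l1, l2, l3⟩ := hf m
      exact ⟨l, l1.trans hi, l2, l3⟩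
    exact h2.le h1

end Pool.Agent.Results.MP_cd8cba_al.SlowlySolvable
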